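import Pool.Agent.MNT.StmtsA

set_option autoImplicit false

/-!
# MNT row OTN: the inequality at grounded clusters, nonarchimedean case
-/

namespace Pool.Agent.MNT.H67

open Pool.Agent.MNT Polynomial NumberField Filter Topology
open scoped Classical

section lam

variable {P : Type} [Fintype P] [DecidableEq P] (Λ : Lam P)

theorem univ_of_not_subset {s t : Finset P} {d : Finset P} (h1 : s ⊆ d) (h2 : ¬ t ⊆ d) :
    d ≠ Finset.univ := by
  rintro rfl
  exact h2 (Finset.subset_univ t)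

/-- monotonicity of the level -/
theorem lev_le {s t : Finset P} (h : ∀ d ∈ Λ.V, s ⊆ d → t ⊆ d) : Λ.lev s ≤ Λ.lev t := by
  unfold Lam.lev
  refine Finset.sum_le_sum_of_subset_of_nonneg ?_ ?_
  · intro d hd
    rw [Finset.mem_filter] at hd ⊢
    exact ⟨hd.1, h d hd.1 hd.2⟩
  · intro d hd hd'
    rw [Finset.mem_filter] at hd hd'
    have h1 : ¬ s ⊆ d := fun h1 => hd' ⟨hd.1, h1⟩
    exact (Λ.pos d hd.1 (univ_of_not_subset hd.2 h1)).le

/-- strict monotonicity of the level -/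
theorem lev_lt {s t e : Finset P} (h : ∀ d ∈ Λ.V, s ⊆ d → t ⊆ d) (he : e ∈ Λ.V) (h1 : ¬ s ⊆ e)
    (h2 : t ⊆ e) : Λ.lev s < Λ.lev t := by
  unfold Lam.lev
  refine Finset.sum_lt_sum_of_subset (i := e) ?_ ?_ ?_ ?_ ?_
  · intro d hd
    rw [Finset.mem_filter] at hd ⊢
    exact ⟨hd.1, h d hd.1 hd.2⟩
  · rw [Finset.mem_filter]
    exact ⟨he, h2⟩
  · rw [Finset.mem_filter]
    exact fun h3 => h1 h3.2
  · exact Λ.pos e he (univ_of_not_subset h2 h1)
  · intro d hd hd'
    rw [Finset.mem_filter] at hd hd'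
    have h1 : ¬ s ⊆ d := fun h1 => hd' ⟨hd.1, h1⟩
    exact (Λ.pos d hd.1 (univ_of_not_subset hd.2 h1)).le

/-- the odd set of roots at a grounded cluster -/
theorem odd_set {R c : Finset P} (hc : c ∈ Λ.V) (hG : Λ.Grd R c) : ∃ S ⊆ R, ∃ p ∈ S, p ∈ c ∧
    Odd S.card ∧ (∀ q ∈ R, q ∉ S → Λ.lev {q, p} ≤ Λ.lev c) ∧
    ∀ q ∈ S, q ≠ p → Λ.lev c < Λ.lev {q, p} := by
  rcases hG with ⟨p, hpR, hpc, hp⟩ | ⟨s, hs, hodd⟩
  · refine ⟨{p}, Finset.singleton_subset_iff.2 hpR, p, Finset.mem_singleton_self p, hpc, ?_, ?_, ?_⟩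
    · rw [Finset.card_singleton]
      exact odd_one
    · intro q _ _
      refine lev_le Λ fun d hd h1 => hp d hd (h1 ?_)
      exact Finset.mem_insert_of_mem (Finset.mem_singleton_self p)
    · intro q hq hne
      exact absurd (Finset.mem_singleton.1 hq) hne
  · obtain ⟨hsV, hsc, hsk⟩ := hs
    have hne : (s ∩ R).Nonempty := by
      rw [← Finset.card_pos]
      exact hodd.pos
    obtain ⟨p, hp⟩ := hne
    have hps := (Finset.mem_inter.1 hp).1
    refine ⟨s ∩ R, Finset.inter_subset_right, p, hp, hsc.1 hps, hodd, ?_, ?_⟩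
    · intro q hqR hqS
      have hqs : q ∉ s := fun h => hqS (Finset.mem_inter.2 ⟨h, hqR⟩)
      refine lev_le Λ fun d hd h1 => ?_
      have hqd : q ∈ d := h1 (Finset.mem_insert_self _ _)
      have hpd : p ∈ d := h1 (Finset.mem_insert_of_mem (Finset.mem_singleton_self p))
      rcases Λ.lam d hd s hsV with h2 | h2 | h2
      · exact absurd (h2 hqd) hqs
      · exact hsk d hd ⟨h2, fun h3 => hqs (h3 hqd)⟩
      · exact absurd hps (Finset.disjoint_left.1 h2 hpd)
    · intro q hq _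
      have hqs := (Finset.mem_inter.1 hq).1
      have hsub : ({q, p} : Finset P) ⊆ s := by
        intro x hx
        rcases Finset.mem_insert.1 hx with rfl | hx
        · exact hqs
        · rw [Finset.mem_singleton.1 hx]
          exact hps
      refine lev_lt Λ (e := s) (fun d _ h1 => hsub.trans (hsc.1.trans h1)) hsV hsc.2 hsub

end lam

section pol

variable {E P : Type} [Field E] (e : E) (R : Finset P) (z : P → E)

theorem FF_ne (he : e ≠ 0) : FF e R z ≠ 0 := by
  unfold FF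
  exact mul_ne_zero (C_ne_zero.2 he) (Finset.prod_ne_zero_iff.2 fun _ _ => X_sub_C_ne_zero _)

theorem FF_splits : (FF e R z).Splits := by
  unfold FF
  exact (Splits.C e).mul (Splits.prod fun _ _ => Splits.X_sub_C _)

theorem FF_roots (he : e ≠ 0) : (FF e R z).roots = R.val.map z := by
  unfold FF
  rw [roots_C_mul _ he]
  have h1 : (∏ p ∈ R, (X - C (z p))) = ((R.val.map z).map fun a => X - C a).prod := by
    rw [Multiset.map_map]
    rfl
  rw [h1, roots_multiset_prod_X_sub_C]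

theorem FF_cnt (he : e ≠ 0) (v : E → ℝ) (ζ : E) (δ : ℝ) :
    BHT.cnt v (FF e R z) ζ δ = (R.filter fun q => v (z q - ζ) ≤ δ).card := by
  unfold BHT.cnt
  rw [FF_roots e R z he, Multiset.countP_map]
  rfl

end pol

theorem otn (hODN : OdnStmt) : OtnStmt := by
  intro E _ v hna P _ _ R z hz Λ hRep e he c hc hG
  obtain ⟨S, hSR, p, hpS, hpc, hodd, hA, hB⟩ := odd_set Λ hc hG
  refine ⟨p, hpc, ?_⟩
  intro x N U W c' hsol hU
  have hdist : ∀ q, q ≠ p → v (z q - z p) = Real.exp (-Λ.lev {q, p}) := by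
    intro q hq
    have h1 : dis v z q p - Λ.lev {q, p} = 0 := abs_nonpos_iff.1 (hRep q p hq)
    have h2 : 0 < v (z q - z p) := v.pos (sub_ne_zero.2 fun h => hq (hz h))
    have h3 : -Real.log (v (z q - z p)) = Λ.lev {q, p} := sub_eq_zero.1 h1
    rw [← h3, neg_neg, Real.exp_log h2]
  set ρ : ℝ := Real.exp (-Λ.lev c) with hρ
  have hρ0 : 0 < ρ := Real.exp_pos _
  have hfar : ∀ q ∈ R, q ∉ S → ρ ≤ v (z q - z p) := by
    intro q hq hqS
    have hne : q ≠ p := fun h => hqS (h ▸ hpS)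
    rw [hdist q hne]
    exact Real.exp_le_exp.2 (neg_le_neg (hA q hq hqS))
  have hnear : ∀ q ∈ S, v (z q - z p) < ρ := by
    intro q hq
    by_cases hne : q = p
    · rw [hne, sub_self, map_zero]
      exact hρ0
    · rw [hdist q hne]
      exact Real.exp_lt_exp.2 (neg_lt_neg (hB q hq hne))
  -- a radius which is larger than all the near distances
  obtain ⟨δ₀, hδ₀, hδ₀ρ, hδ₀S⟩ : ∃ δ₀ : ℝ, 0 < δ₀ ∧ δ₀ < ρ ∧ ∀ q ∈ S, v (z q - z p) ≤ δ₀ := by
    refine ⟨max (ρ / 2) (S.sup' ⟨p, hpS⟩ fun q => v (z q - z p)), ?_, ?_, ?_⟩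
    · exact lt_of_lt_of_le (by positivity) (le_max_left _ _)
    · refine max_lt (by linarith) ?_
      rw [Finset.sup'_lt_iff]
      exact hnear
    · intro q hq
      exact le_trans (Finset.le_sup' (fun q => v (z q - z p)) hq) (le_max_right _ _)
  have hkey : ∀ δ ∈ Set.Ioo δ₀ ρ, Harm v U.roots x (z p) δ 0 := by
    intro δ hδ
    refine hODN E v hna (FF e R z) x N U W c' (FF_ne e R z he) (FF_splits e R z) hU hsol (z p) δ
      (hδ₀.trans hδ.1) ?_
    rw [FF_cnt e R z he]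
    have hS : (R.filter fun q => v (z q - z p) ≤ δ) = S := by
      ext q
      rw [Finset.mem_filter]
      constructor
      · rintro ⟨h1, h2⟩
        by_contra h3
        exact absurd (hfar q h1 h3) (not_le.2 (lt_of_le_of_lt h2 hδ.2))
      · intro h1
        exact ⟨hSR h1, (hδ₀S q h1).trans hδ.1.le⟩
    rw [hS]
    exact hodd
  -- the limit
  have hcont : ∀ a : ℝ, Tendsto (fun δ : ℝ => Real.log (max δ a)) (𝓝[<] ρ)
      (𝓝 (Real.log (max ρ a))) := by
    intro a
    have h1 : ContinuousAt (fun δ : ℝ => Real.log (max δ a)) ρ := by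
      refine ContinuousAt.log ?_ ?_
      · exact (continuous_id.max continuous_const).continuousAt
      · exact (lt_of_lt_of_le hρ0 (le_max_left _ _)).ne'
    exact h1.tendsto.mono_left nhdsWithin_le_nhds
  have hev : ∀ᶠ δ in 𝓝[<] ρ, Harm v U.roots x (z p) δ 0 := by
    filter_upwards [Ioo_mem_nhdsLT hδ₀ρ] with δ hδ using hkey δ hδ
  refine le_of_tendsto_of_tendsto (b := 𝓝[<] ρ) ?_ ?_ hev
  · exact tendsto_multiset_sum _ fun ζ _ => hcont (v (ζ - z p))
  · exact ((hcont (v (x - z p))).add_const 0).const_mul _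

end Pool.Agent.MNT.H67
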